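import Pool.Agent.Helper12.MA.StC

/-!
# Project MA, module ENT: what the types say about `x` and `y`
-/

set_option autoImplicit false

namespace Pool.Agent.Helper84.MA

open Pool.Agent.Helper12.MA
open Pool.Agent.Helper51.AJ (IsMinor Planar Apex ExMinor Con Tch)
open Pool.Agent.Helper12.NK (rst Kc add cnt Pcy IsFace Cof plus)

private theorem not_z {V : Type} {G : SimpleGraph V} {z v p q r r' : V} {f1 f3 : Set V} {σ b : V}
    {X Y : Set V} (hc : Cut G z v p q r r' f1 f3 σ b X Y) : (z ∉ X ∧ z ∉ Y) := by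
  have h : z ∉ X ∪ Y := by
    rw [hc.sep.cov]
    simp
  exact ⟨fun hz => h (Or.inl hz), fun hz => h (Or.inr hz)⟩

private theorem dis {V : Type} {G : SimpleGraph V} {z v p q r r' : V} {f1 f3 : Set V} {σ b : V}
    {X Y : Set V} (hc : Cut G z v p q r r' f1 f3 σ b X Y) {a : V} (hX : a ∈ X) (hY : a ∈ Y) : False :=
  Set.disjoint_left.mp hc.sep.dis hX hY

/-- ENT. -/
theorem hENT (hHFA : StHFA) (hCLS : StCLS) (hCUA : StCUA) (hGAA : StGAA) (hENS : StENS)
    (hSYM : StSYM) : StENT := by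
  intro V _ G z v p q r r' f1 f2 f3 f4 X₀ Y₀ x y E w hvw hwz hwx hwy
  obtain ⟨σ₀, b₀, Y, hX₀⟩ := E.cX
  obtain ⟨σ₁, b₁, X, hY₀⟩ := E.cY
  have hcf := E.cf
  have hxz : x ≠ z := by
    intro h
    exact (not_z hX₀).1 (h ▸ E.xX)
  have hyz : y ≠ z := by
    intro h
    exact (not_z hY₀).2 (h ▸ E.yY)
  have hxW : ∀ {S : Set V}, ({a | G.Adj v a} \ {z, w} ⊆ S) → x ∈ S := by
    intro S h
    refine h ⟨E.vx, ?_⟩
    simp only [Set.mem_insert_iff, Set.mem_singleton_iff, not_or]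
    exact ⟨hxz, fun h => hwx h.symm⟩
  have hyW : ∀ {S : Set V}, ({a | G.Adj v a} \ {z, w} ⊆ S) → y ∈ S := by
    intro S h
    refine h ⟨E.vy, ?_⟩
    simp only [Set.mem_insert_iff, Set.mem_singleton_iff, not_or]
    exact ⟨hyz, fun h => hwy h.symm⟩
  obtain ⟨-, hE2, -, hE4⟩ := hENS V G z v p q r r' f1 f2 f3 f4 X₀ Y₀ x y E
  obtain ⟨-, ⟨c2, -⟩, -, ⟨-, c4⟩, -⟩ := hCUA V G z v p q r r' f1 f2 f3 f4 hcf σ₀ b₀ X₀ Y hX₀
  obtain ⟨-, ⟨-, d2⟩, -, ⟨d4, -⟩, -⟩ := hCUA V G z v p q r r' f1 f2 f3 f4 hcf σ₁ b₁ X Y₀ hY₀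
  rcases (hCLS V G z v p q r r' f1 f2 f3 f4 hcf).1 w hvw hwz with
    ⟨F, hF⟩ | hTP | hTQ | ⟨t, Γ, hTN⟩
  · -- a face of `H`
    have hxF := hxW hF.2
    have hyF := hyW hF.2
    rcases (hHFA V G z v p q r r' f1 f2 f3 f4 hcf).2.2.2.2 F hF.1 with h | h | ⟨h, hz⟩
    · left
      subst h
      refine ⟨hF, ?_, hyF.1⟩
      rcases hxF.1 with h1 | h2
      · exact h1
      · exfalso
        rcases c2 h2 with h3 | h3
        · exact hxz h3
        · exact dis hX₀ E.xX h3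
    · right; left
      subst h
      refine ⟨hF, ?_, hxF.1⟩
      rcases hyF.1 with h1 | h2
      · exact h1
      · exfalso
        rcases d2 h2 with h3 | h3
        · exact hyz h3
        · exact dis hY₀ h3 E.yY
    · right; right; left
      refine ⟨F, hF, h, hz, hxF, hyF, fun σ b X' Y' hc => ?_⟩
      obtain ⟨m1, m2⟩ := E.mX σ b X' Y' hc
      exact (hCUA V G z v p q r r' f1 f2 f3 f4 hcf σ b X' Y' hc).1 F h hz ⟨x, hxF, m1 E.xX⟩
        ⟨y, hyF, m2 E.yY⟩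
  · right; right; right; left
    refine ⟨hTP, ?_, ?_⟩
    · rcases hyW hTP with h | h
      · exfalso
        exact dis hY₀ hY₀.sep.xL (h ▸ E.yY)
      · exact d4 y E.yY h
    · rcases hxW hTP with h | h
      · exact absurd h E.xp
      · exact h
  · right; right; right; right; left
    refine ⟨hTQ, ?_, ?_⟩
    · rcases hxW hTQ with h | h
      · exfalso
        exact dis hX₀ (h ▸ E.xX) hX₀.sep.yR
      · exact c4 x E.xX h
    · rcases hyW hTQ with h | h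
      · exact absurd h E.yq
      · exact h
  · right; right; right; right; right
    obtain ⟨b, X', Y', hc⟩ := hE4 t Γ hTN.1
    have ht : t ∉ X₀ ∪ Y₀ := by
      rcases hc with hc | hc
      · exact (hE2 _ _ _ _ hc).1
      · exact (hE2 _ _ _ _ hc).2
    have hxG : x ∈ Γ := by
      refine hTN.2.2.2 ⟨E.vx, ?_⟩
      simp only [Set.mem_insert_iff, Set.mem_singleton_iff, not_or]
      exact ⟨fun h => hwx h.symm, fun h => ht (Or.inl (h ▸ E.xX))⟩
    have hyG : y ∈ Γ := by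
      refine hTN.2.2.2 ⟨E.vy, ?_⟩
      simp only [Set.mem_insert_iff, Set.mem_singleton_iff, not_or]
      exact ⟨fun h => hwy h.symm, fun h => ht (Or.inr (h ▸ E.yY))⟩
    rcases hc with hc | hc
    · left
      refine ⟨t, b, X', Y', Γ, hc, hTN, ?_, hxG, hyG⟩
      obtain ⟨s1, -, s3, s4⟩ := hSYM V G z v p q r r' f1 f2 f3 f4 hcf
      have hg := (hGAA V G z v q p r' r f3 f4 f1 f2 s1 b t Y' X' Γ (s4 t b X' Y' hc)
        (s3 t Γ hTN.1).1).2.1
      have hx : x ∈ Γ ∩ X' := ⟨hxG, (E.mX _ _ _ _ hc).1 E.xX⟩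
      rw [hg] at hx
      exact hx.1
    · right
      refine ⟨b, t, X', Y', Γ, hc, hTN, ?_, hxG, hyG⟩
      have hg := (hGAA V G z v p q r r' f1 f2 f3 f4 hcf b t X' Y' Γ hc hTN.1).2.1
      have hy : y ∈ Γ ∩ Y' := ⟨hyG, (E.mX _ _ _ _ hc).2 E.yY⟩
      rw [hg] at hy
      exact hy.1

end Pool.Agent.Helper84.MA
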