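import Pool.Agent.Helper12.MA.StD

/-!
# Project MA, module EXB: the exceptional situation, server `q₃`
-/

set_option autoImplicit false

namespace Pool.Agent.Helper84.MA

open Pool.Agent.Helper12.MA
open Pool.Agent.Helper51.AJ (IsMinor Planar Apex ExMinor Con Tch)
open Pool.Agent.Helper12.NK (rst Kc add cnt Pcy IsFace Cof plus)

private theorem n4 {V : Type} (a b c d : V) : ({a, b, c, d} : Set V).ncard ≤ 4 := by
  have h1 := Set.ncard_insert_le a ({b, c, d} : Set V)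
  have h2 := Set.ncard_insert_le b ({c, d} : Set V)
  have h3 := Set.ncard_insert_le c ({d} : Set V)
  have h4 := Set.ncard_singleton d
  omega

private theorem lt5 {V : Type} {S : Set V} (a b c d : V) (h : 5 ≤ S.ncard)
    (hs : S ⊆ {a, b, c, d}) : False := by
  have h1 := Set.ncard_le_ncard hs (Set.toFinite _)
  have h2 := n4 a b c d
  omega

private theorem five {V : Type} {a b c d e : V} (h : 5 ≤ ({a, b, c, d, e} : Set V).ncard) :
    a ≠ b ∧ a ≠ c ∧ a ≠ d ∧ a ≠ e ∧ b ≠ c ∧ b ≠ d ∧ b ≠ e ∧ c ≠ d ∧ c ≠ e ∧ d ≠ e := by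
  refine ⟨?_, ?_, ?_, ?_, ?_, ?_, ?_, ?_, ?_, ?_⟩
  · rintro rfl
    exact lt5 a c d e h fun x hx => by simp only [Set.mem_insert_iff, Set.mem_singleton_iff] at hx ⊢; tauto
  · rintro rfl
    exact lt5 a b d e h fun x hx => by simp only [Set.mem_insert_iff, Set.mem_singleton_iff] at hx ⊢; tauto
  · rintro rfl
    exact lt5 a b c e h fun x hx => by simp only [Set.mem_insert_iff, Set.mem_singleton_iff] at hx ⊢; tauto
  · rintro rfl
    exact lt5 a b c d h fun x hx => by simp only [Set.mem_insert_iff, Set.mem_singleton_iff] at hx ⊢; tauto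
  · rintro rfl
    exact lt5 a b d e h fun x hx => by simp only [Set.mem_insert_iff, Set.mem_singleton_iff] at hx ⊢; tauto
  · rintro rfl
    exact lt5 a b c e h fun x hx => by simp only [Set.mem_insert_iff, Set.mem_singleton_iff] at hx ⊢; tauto
  · rintro rfl
    exact lt5 a b c d h fun x hx => by simp only [Set.mem_insert_iff, Set.mem_singleton_iff] at hx ⊢; tauto
  · rintro rfl
    exact lt5 a b c e h fun x hx => by simp only [Set.mem_insert_iff, Set.mem_singleton_iff] at hx ⊢; tauto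
  · rintro rfl
    exact lt5 a b c d h fun x hx => by simp only [Set.mem_insert_iff, Set.mem_singleton_iff] at hx ⊢; tauto
  · rintro rfl
    exact lt5 a b c d h fun x hx => by simp only [Set.mem_insert_iff, Set.mem_singleton_iff] at hx ⊢; tauto

private theorem face_sub {V : Type} {M : SimpleGraph V} {U F : Set V} (h : IsFace M U F) : F ⊆ U := by
  obtain ⟨m, c, hc, rfl⟩ := h
  exact hc.2.2.1

/-- The two edges `x q₁`, `x q₂` of a vertex of degree three lie in a common face. -/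
private theorem face3 (hFNB : StFNB) {V : Type} [Finite V] {M : SimpleGraph V} {U : Set V} (hP : Pn M U)
    {x y q₁ q₂ : V} (hx : x ∈ U) (hq : q₁ ∈ U) (ha : M.Adj x q₁)
    (hn : ∀ c ∈ U, M.Adj x c → c = y ∨ c = q₁ ∨ c = q₂) (hxy : x ≠ y) (hqy : q₁ ≠ y) :
    ∃ Φ, IsFace M U Φ ∧ x ∈ Φ ∧ q₁ ∈ Φ ∧ q₂ ∈ Φ := by
  obtain ⟨h1, h2, -, -, h5, -⟩ := hFNB V M U hP
  obtain ⟨F, F', hF, hF', hne, xF, qF, xF', qF', -⟩ := h1 x hx q₁ hq ha
  obtain ⟨b, bF, hb, hab, -⟩ := h2 x hx q₁ hq ha F hF xF qF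
  obtain ⟨b', bF', hb', hab', -⟩ := h2 x hx q₁ hq ha F' hF' xF' qF'
  rcases hn b (face_sub hF bF) hab with e | e | e
  · rcases hn b' (face_sub hF' bF') hab' with e' | e' | e'
    · exfalso
      subst e
      subst e'
      exact hne (h5 F F' hF hF' x q₁ b' xF qF bF xF' qF' bF' ha.ne hqy hxy)
    · exact absurd e' hb'
    · subst e'
      exact ⟨F', hF', xF', qF', bF'⟩
  · exact absurd e hb
  · subst e
    exact ⟨F, hF, xF, qF, bF⟩

/-- EXB. -/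
theorem hEXB (hFNB : StFNB) (hEFL : StEFL) (hBAS : StBAS) : StEXB := by
  intro V _ G x x' y q₁ q₂ q₃ q₄ hB hE hS
  obtain ⟨-, -, -, b4, b5, -, b7⟩ := hBAS V G hB
  have hxx : G.Adj x x' := (hE.nx x').2 (by tauto)
  have hP : Pn (dl G x x') {q₃}ᶜ := ⟨b5 q₃ x x', hS.2.2⟩
  have hnc := b7 q₃ x x' hxx hS
  -- all the neighbours are different
  have s1 : {a | G.Adj x a} = ({y, x', q₁, q₂, q₃} : Set V) := by
    ext c
    simp only [Set.mem_setOf_eq, Set.mem_insert_iff, Set.mem_singleton_iff]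
    exact hE.nx c
  have s2 : {a | G.Adj x' a} = ({x, q₁, q₂, q₃, q₄} : Set V) := by
    ext c
    simp only [Set.mem_setOf_eq, Set.mem_insert_iff, Set.mem_singleton_iff]
    exact hE.nx' c
  have c1 := b4 x
  rw [s1] at c1
  have c2 := b4 x'
  rw [s2] at c2
  obtain ⟨d1, d2, d3, d4, d5, d6, d7, d8, d9, d10⟩ := five c1
  obtain ⟨e1, e2, e3, e4, e5, e6, e7, e8, e9, e10⟩ := five c2
  have hxy : G.Adj x y := (hE.nx y).2 (by tauto)
  have hx'q4 : G.Adj x' q₄ := (hE.nx' q₄).2 (by tauto)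
  have hxq1 : G.Adj x q₁ := (hE.nx q₁).2 (by tauto)
  have hx'q1 : G.Adj x' q₁ := (hE.nx' q₁).2 (by tauto)
  -- the faces
  obtain ⟨Φ, hΦ, m1, m2, m3⟩ : ∃ Φ, IsFace (dl G x x') {q₃}ᶜ Φ ∧ x ∈ Φ ∧ q₁ ∈ Φ ∧ q₂ ∈ Φ := by
    refine face3 hFNB (y := y) hP (fun h => hS.1 h.symm) d9 ?_ ?_ hxy.ne d2.symm
    · exact ⟨hxq1, fun h => d5 h.2.symm, fun h => hxx.ne h.1⟩
    · intro c hc hac
      have hc' : c ≠ q₃ := hc
      rcases (hE.nx c).1 hac.1 with h | h | h | h | h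
      · exact Or.inl h
      · exact absurd ⟨rfl, h⟩ hac.2.1
      · exact Or.inr (Or.inl h)
      · exact Or.inr (Or.inr h)
      · exact absurd h hc'
  obtain ⟨Φ', hΦ', n1, n2, n3⟩ : ∃ Φ, IsFace (dl G x x') {q₃}ᶜ Φ ∧ x' ∈ Φ ∧ q₁ ∈ Φ ∧ q₂ ∈ Φ := by
    refine face3 hFNB (y := q₄) hP (fun h => hS.2.1 h.symm) d9 ?_ ?_ hx'q4.ne e7
    · exact ⟨hx'q1, fun h => hxx.ne h.1.symm, fun h => e1 h.2.symm⟩
    · intro c hc hac
      have hc' : c ≠ q₃ := hc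
      rcases (hE.nx' c).1 hac.1 with h | h | h | h | h
      · exact absurd ⟨rfl, h⟩ hac.2.2
      · exact Or.inr (Or.inl h)
      · exact Or.inr (Or.inr h)
      · exact absurd h hc'
      · exact Or.inl h
  have hne : Φ ≠ Φ' := by
    intro h
    subst h
    exact hnc ⟨Φ, hΦ, m1, n1⟩
  have hqq : (dl G x x').Adj q₁ q₂ := by
    by_contra hcon
    exact hne ((hFNB V (dl G x x') {q₃}ᶜ hP).2.2.2.1 Φ Φ' hΦ hΦ' q₁ q₂ m2 m3 n2 n3 d8 hcon)
  have hxq2 : G.Adj x q₂ := (hE.nx q₂).2 (by tauto)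
  have hx'q2 : G.Adj x' q₂ := (hE.nx' q₂).2 (by tauto)
  have hpl := hEFL V (dl G x x') {q₃}ᶜ q₁ q₂ x x' Φ Φ' hP hqq hΦ hΦ' hne m2 m3 n2 n3 m1 hxq1.ne
    hxq2.ne n1 hx'q1.ne hx'q2.ne
  have hgr : rst (ae (dl (dl G x x') q₁ q₂) x x') {q₃}ᶜ = rst (dl G q₁ q₂) {q₃}ᶜ := by
    ext a b
    constructor
    · rintro ⟨h | ⟨-, ⟨rfl, rfl⟩ | ⟨rfl, rfl⟩⟩, ha, hb⟩
      · exact ⟨⟨h.1.1, h.2⟩, ha, hb⟩
      · exact ⟨⟨hxx, fun h => hxq1.ne h.1, fun h => hxq2.ne h.1⟩, ha, hb⟩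
      · exact ⟨⟨hxx.symm, fun h => hx'q1.ne h.1, fun h => hx'q2.ne h.1⟩, ha, hb⟩
    · rintro ⟨⟨h, h'⟩, ha, hb⟩
      refine ⟨?_, ha, hb⟩
      by_cases k : (a = x ∧ b = x') ∨ (a = x' ∧ b = x)
      · exact Or.inr ⟨h.ne, k⟩
      · exact Or.inl ⟨⟨h, fun k' => k (Or.inl k'), fun k' => k (Or.inr k')⟩, h'⟩
  rw [hgr] at hpl
  refine ⟨x, q₃, q₁, q₂, x', y, ⟨?_, ?_, hqq.1, hpl⟩⟩
  · intro c
    rw [hE.nx c]
    tauto
  · exact ⟨d9.symm, d10.symm, d7.symm, d4.symm, d8, d5.symm, d2.symm, d6.symm, d3.symm, d1.symm⟩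

end Pool.Agent.Helper84.MA
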